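import Pool.Agent.Run7.h107.FIN

/-!
MP_bc5a73_al: random Cayley graphs of finite simple groups with a growing number of letters.
-/

namespace Pool.Agent.Results.MP_bc5a73_al.SimpleGroupsFewLetters

open Run7.h107

/-- For every `δ > 0`, every large enough finite nonabelian simple group `G` and all `L ≥ 1`, `m`
with `m ≥ 100000 L ((1 + log k / log D) (log D)^(1/L) + (log |G| / log D)^(1/L))`, where `D` is
the least dimension of a nontrivial complex representation and `k` the number of conjugacy
classes of `G`: at least a `1 - δ` fraction of the `m`-tuples have a `1/(1000 L)`-vertex-expanding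
symmetric Cayley graph. -/
theorem result :
    ∀ δ : ℝ, 0 < δ → ∃ N : ℕ,
      ∀ (G : Type) [Group G] [Finite G] [IsSimpleGroup G],
        (∃ a b : G, a * b ≠ b * a) → N ≤ Nat.card G →
        ∀ L m : ℕ, 1 ≤ L →
        100000 * L * ((1 + Real.log (Nat.card (ConjClasses G)) / Real.log (minDim G)) *
            (Real.log (minDim G)) ^ (1 / (L : ℝ)) +
          (Real.log (Nat.card G) / Real.log (minDim G)) ^ (1 / (L : ℝ))) ≤ m →
        (1 - δ) * (Nat.card G : ℝ) ^ m ≤
          (Nat.card {x : Fin m → G //
            ∀ A : Set G, 2 * Nat.card A ≤ Nat.card G →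
              1 / (1000 * L) * (Nat.card A : ℝ) ≤
                (Nat.card {g : G // g ∉ A ∧ ∃ a ∈ A, ∃ i : Fin m,
                  g = a * x i ∨ g = a * (x i)⁻¹} : ℝ)} : ℝ) :=
  fun _ hδ => simple_main hδ

end Pool.Agent.Results.MP_bc5a73_al.SimpleGroupsFewLetters
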